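import Mathlib

/-!
# MP_c4a6c0: pairwise compatibility does not imply compatibility for monotonic zeros
-/

namespace Pool.Agent.Results.MP_c4a6c0_an.PairwiseNotEnough

open Complex

/-- Even, real, entire functions. -/
def EvenRealEntire (f : ℂ → ℂ) : Prop :=
  Differentiable ℂ f ∧ (∀ z, f (-z) = f z) ∧ ∀ x : ℝ, (f x).im = 0

/-- Monotonic zeros in the closed first quadrant. -/
def MonotonicZeros (F : ℂ → ℂ) : Prop :=
  (∃ z, F z ≠ 0) ∧ ∀ α β : ℂ, 0 ≤ α.re → 0 ≤ α.im → 0 ≤ β.re → 0 ≤ β.im → F α = 0 → F β = 0 →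
    α ≠ β → α.re ≠ β.re ∧ (α.re < β.re → α.im ≤ β.im)

/-- A finite family is compatible if every combination with nonnegative coefficients which is not
identically zero has monotonic zeros. -/
def Compatible {ι : Type} [Fintype ι] (f : ι → ℂ → ℂ) : Prop :=
  ∀ c : ι → ℝ, (∀ j, 0 ≤ c j) → (∃ z, ∑ j, (c j : ℂ) * f j z ≠ 0) →
    MonotonicZeros (fun z => ∑ j, (c j : ℂ) * f j z)

/-- Pairwise compatible families. -/
def PairwiseCompatible {k : ℕ} (f : Fin k → ℂ → ℂ) : Prop :=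
  ∀ i j : Fin k, i < j → Compatible ![f i, f j]

/-- The quartic family in `w = z ^ 2`. -/
noncomputable def P (a b : ℝ) (w : ℂ) : ℂ :=
  w ^ 4 - 2000000 * w ^ 3 + ((1000000000000 + 1000000 * (2 + b + a) : ℝ) : ℂ) * w ^ 2 +
    ((1000000000000 * a : ℝ) : ℂ) * w + ((1000000000000 * b : ℝ) : ℂ)

/-- The box of parameters. -/
def Box (a b : ℝ) : Prop := -41 / 2 ≤ a ∧ a ≤ -1 / 2 ∧ 1 / 4 ≤ b ∧ b ≤ 161 / 4

/-- The three edges of the triangle. -/
def Edge (a b : ℝ) : Prop := a = -1 / 2 ∨ b = 1 / 4 ∨ b = 2 * a + 165 / 4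

lemma real_loc (n m : ℝ) (hn : 100 ≤ n) (hm : 10000 ≤ m) (h : 1000000 ≤ n + m)
    (H : n ^ 2 * m ^ 2 ≤ 1000000 * (42 * n ^ 2 + 1000000 * (21 * n + 41))) : False := by
  rcases le_total 500000 n with h1 | h1
  · have e1 : n ^ 2 * 10000 ^ 2 ≤ n ^ 2 * m ^ 2 := by gcongr
    nlinarith
  · have hm2 : 500000 ≤ m := by linarith
    have e1 : n ^ 2 * 500000 ^ 2 ≤ n ^ 2 * m ^ 2 := by gcongr
    nlinarith

lemma root_loc {a b : ℝ} (hB : Box a b) {w : ℂ} (hw : P a b w = 0) :
    ‖w‖ < 100 ∨ ‖w - 1000000‖ < 10000 := by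
  obtain ⟨h1, h2, h3, h4⟩ := hB
  by_contra hcon
  push Not at hcon
  obtain ⟨c1, c2⟩ := hcon
  have htri : (1000000 : ℝ) ≤ ‖w‖ + ‖w - 1000000‖ := by
    have : ‖(1000000 : ℂ)‖ ≤ ‖w‖ + ‖w - 1000000‖ := by
      calc ‖(1000000 : ℂ)‖ = ‖w - (w - 1000000)‖ := by congr 1; ring
        _ ≤ _ := norm_sub_le _ _
    simpa using this
  refine real_loc ‖w‖ ‖w - 1000000‖ c1 c2 htri ?_
  have hid : w ^ 2 * (w - 1000000) ^ 2 =
      -(1000000 * (((2 + b + a : ℝ) : ℂ) * w ^ 2 + 1000000 * ((a : ℂ) * w + (b : ℂ)))) := by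
    have := hw
    unfold P at this
    push_cast at this ⊢
    linear_combination this
  have hn : ‖w‖ ^ 2 * ‖w - 1000000‖ ^ 2 =
      ‖(1000000 : ℂ) * (((2 + b + a : ℝ) : ℂ) * w ^ 2 + 1000000 * ((a : ℂ) * w + (b : ℂ)))‖ := by
    rw [← norm_pow, ← norm_pow, ← norm_mul, hid, norm_neg]
  rw [hn, norm_mul]
  have e0 : ‖(1000000 : ℂ)‖ = 1000000 := by simp
  rw [e0]
  have ha : ‖(a : ℂ)‖ ≤ 21 := by
    rw [Complex.norm_real, Real.norm_eq_abs, abs_le]; constructor <;> linarith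
  have hb : ‖(b : ℂ)‖ ≤ 41 := by
    rw [Complex.norm_real, Real.norm_eq_abs, abs_le]; constructor <;> linarith
  have hab : ‖((2 + b + a : ℝ) : ℂ)‖ ≤ 42 := by
    rw [Complex.norm_real, Real.norm_eq_abs, abs_le]; constructor <;> linarith
  have s1 : ‖(a : ℂ) * w + (b : ℂ)‖ ≤ 21 * ‖w‖ + 41 := by
    refine (norm_add_le _ _).trans ?_
    rw [norm_mul]
    gcongr
  have s2 : ‖((2 + b + a : ℝ) : ℂ) * w ^ 2 + 1000000 * ((a : ℂ) * w + (b : ℂ))‖ ≤
      42 * ‖w‖ ^ 2 + 1000000 * (21 * ‖w‖ + 41) := by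
    refine (norm_add_le _ _).trans ?_
    rw [norm_mul, norm_mul, norm_pow, e0]
    gcongr
  gcongr

/-- The key inequality for the small factor `w ^ 2 - p w + t ^ 2` with nonreal roots. -/
lemma key {a b p t s : ℝ} (hB : Box a b) (hE : Edge a b) (ht0 : 0 < t) (ht : t < 100)
    (hp : |p| < 2 * t)
    (h2 : t ^ 2 + s + p * (2000000 - p) = 1000000000000 + 1000000 * (2 + b + a))
    (h3 : p * s + t ^ 2 * (2000000 - p) = -(1000000000000 * a))
    (h4 : t ^ 2 * s = 1000000000000 * b) :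
    (1000000 - p + t) ^ 2 ≤ s := by
  obtain ⟨b1, b2, b3, b4⟩ := hB
  obtain ⟨p1, p2⟩ := abs_lt.1 hp
  have hs : s = (1000000 - p) ^ 2 + 1000000 * (2 + b + a) - t ^ 2 := by linarith
  have hs1 : 990000000000 ≤ s := by
    rw [hs]
    nlinarith
  have ht7 : t < 13 / 2 := by
    by_contra hcon
    push Not at hcon
    have : (13 / 2 : ℝ) ^ 2 ≤ t ^ 2 := by gcongr
    nlinarith
  have hp13 : p < 13 := by linarith
  have hp13' : -13 < p := by linarith
  have hsu : s ≤ 1000100000000 := by rw [hs]; nlinarith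
  have hsl : 999900000000 ≤ s := by rw [hs]; nlinarith
  have htt : t ^ 2 < 43 := by nlinarith
  have htt0 : 0 < t ^ 2 := by positivity
  have hq1 : b ≤ t ^ 2 + 1 / 100 := by nlinarith
  have hq2 : t ^ 2 ≤ b + 1 / 100 := by nlinarith
  have hps1 : p * s ≤ 1000000000000 * p + 13 * 100000000 := by
    rcases le_total 0 p with h | h <;> nlinarith
  have hps2 : 1000000000000 * p - 13 * 100000000 ≤ p * s := by
    rcases le_total 0 p with h | h <;> nlinarith
  have hqr1 : t ^ 2 * (2000000 - p) ≤ 43 * 2000013 := by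
    have : 2000000 - p ≤ 2000013 := by linarith
    have h0 : 0 ≤ 2000000 - p := by linarith
    calc t ^ 2 * (2000000 - p) ≤ 43 * (2000000 - p) := by gcongr
      _ ≤ _ := by gcongr
  have hqr2 : 0 ≤ t ^ 2 * (2000000 - p) := by
    have h0 : 0 ≤ 2000000 - p := by linarith
    positivity
  have hap1 : -a ≤ p + 1 / 100 := by nlinarith
  have hap2 : p - 1 / 100 ≤ -a := by nlinarith
  have hmain : 1 / 100 ≤ 2 + b + a - 2 * t := by
    rcases hE with h | h | h
    · nlinarith [sq_nonneg (t - 1)]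
    · have ht51 : t ≤ 51 / 100 + 1 / 100 := by
        by_contra hcon
        push Not at hcon
        nlinarith
      nlinarith
    · have ht45 : 9 / 2 ≤ t := by
        by_contra hcon
        push Not at hcon
        nlinarith
      nlinarith
  have hpt : -(13 * (13 / 2)) ≤ p * t := by nlinarith
  rw [hs]
  nlinarith

/-- A nonreal root splits off a real quadratic factor. -/
lemma factor {a b : ℝ} {w : ℂ} (hw : P a b w = 0) (him : w.im ≠ 0) :
    ∃ s : ℝ, normSq w + s + 2 * w.re * (2000000 - 2 * w.re) =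
        1000000000000 + 1000000 * (2 + b + a) ∧
      2 * w.re * s + normSq w * (2000000 - 2 * w.re) = -(1000000000000 * a) ∧
      normSq w * s = 1000000000000 * b ∧
      ∀ v : ℂ, P a b v = (v ^ 2 - (2 * w.re : ℝ) * v + (normSq w : ℝ)) *
        (v ^ 2 - (2000000 - 2 * w.re : ℝ) * v + (s : ℝ)) := by
  set p : ℝ := 2 * w.re with hp
  set q : ℝ := normSq w with hq
  set s : ℝ := 1000000000000 + 1000000 * (2 + b + a) - q - p * (2000000 - p) with hs
  have hquad : w ^ 2 - (p : ℂ) * w + (q : ℂ) = 0 := by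
    have h1 : (p : ℂ) = w + (starRingEnd ℂ) w := by
      rw [Complex.add_conj, hp]
    have h2 : (q : ℂ) = w * (starRingEnd ℂ) w := by
      rw [Complex.mul_conj, hq]
    rw [h1, h2]; ring
  have hid : ∀ v : ℂ, P a b v = (v ^ 2 - (p : ℝ) * v + (q : ℝ)) *
      (v ^ 2 - (2000000 - p : ℝ) * v + (s : ℝ)) +
      ((1000000000000 * a + p * s + q * (2000000 - p) : ℝ) * v +
        (1000000000000 * b - q * s : ℝ)) := by
    intro v
    unfold P
    rw [hs]
    push_cast
    ring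
  have h0 : ((1000000000000 * a + p * s + q * (2000000 - p) : ℝ) : ℂ) * w +
      ((1000000000000 * b - q * s : ℝ) : ℂ) = 0 := by
    have := hid w
    rw [hw, hquad, zero_mul, zero_add] at this
    exact this.symm
  have hα : 1000000000000 * a + p * s + q * (2000000 - p) = 0 := by
    have := congrArg Complex.im h0
    simp only [Complex.add_im, Complex.mul_im, Complex.ofReal_re, Complex.ofReal_im, zero_mul,
      add_zero, Complex.zero_im] at this
    exact (mul_eq_zero.1 this).resolve_right him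
  have hβ : 1000000000000 * b - q * s = 0 := by
    rw [hα, Complex.ofReal_zero, zero_mul, zero_add] at h0
    exact_mod_cast h0
  refine ⟨s, by rw [hs]; ring, by linarith, by linarith, fun v => ?_⟩
  rw [hid v, hα, hβ]
  simp

lemma sq_re (z : ℂ) : (z ^ 2).re = z.re ^ 2 - z.im ^ 2 := by
  rw [pow_two, Complex.mul_re]; ring

lemma sq_im (z : ℂ) : (z ^ 2).im = 2 * z.re * z.im := by
  rw [pow_two, Complex.mul_im]; ring

lemma norm_sq' (z : ℂ) : ‖z ^ 2‖ = z.re ^ 2 + z.im ^ 2 := by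
  rw [norm_pow, ← Complex.normSq_eq_norm_sq, Complex.normSq_apply]; ring

lemma eq_of_sq_eq {z v : ℂ} (h1 : 0 ≤ z.re) (h2 : 0 ≤ z.im) (h3 : 0 ≤ v.re) (h4 : 0 ≤ v.im)
    (h : z ^ 2 = v ^ 2) : z = v := by
  rcases sq_eq_sq_iff_eq_or_eq_neg.1 h with h | h
  · exact h
  · rw [h] at h1 h2
    simp only [Complex.neg_re, Complex.neg_im] at h1 h2
    have e1 : v.re = 0 := by linarith
    have e2 : v.im = 0 := by linarith
    have : v = 0 := Complex.ext e1 e2
    rw [h, this, neg_zero]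

/-- A small nonreal zero comes before every other zero. -/
lemma small_case {a b : ℝ} (hB : Box a b) (hE : Edge a b) {z v : ℂ} (hz1 : 0 ≤ z.re)
    (hz2 : 0 ≤ z.im) (hv1 : 0 ≤ v.re) (hv2 : 0 ≤ v.im) (hz : P a b (z ^ 2) = 0)
    (hv : P a b (v ^ 2) = 0) (hne : z ≠ v) (him : (z ^ 2).im ≠ 0) (hsm : ‖z ^ 2‖ < 100) :
    z.re < v.re ∧ z.im ≤ v.im := by
  obtain ⟨s, e2, e3, e4, hfac⟩ := factor hz him
  set x := z.re with hx
  set y := z.im with hy
  set t : ℝ := x ^ 2 + y ^ 2 with ht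
  have hnt : ‖z ^ 2‖ = t := norm_sq' z
  have hre : (z ^ 2).re = x ^ 2 - y ^ 2 := sq_re z
  have himz : (z ^ 2).im = 2 * x * y := sq_im z
  have hnq : normSq (z ^ 2) = t ^ 2 := by
    rw [Complex.normSq_eq_norm_sq, hnt]
  rw [hre, hnq] at e2 e3
  rw [hnq] at e4
  have hx0 : 0 < x := by
    rcases hz1.lt_or_eq with h | h
    · exact h
    · exfalso; apply him; rw [himz, ← h]; ring
  have hy0 : 0 < y := by
    rcases hz2.lt_or_eq with h | h
    · exact h
    · exfalso; apply him; rw [himz, ← h]; ring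
  have ht0 : 0 < t := by positivity
  have ht100 : t < 100 := by rw [← hnt]; exact hsm
  have hp : |2 * (x ^ 2 - y ^ 2)| < 2 * t := by
    rw [abs_lt]
    constructor <;> nlinarith [pow_pos hx0 2, pow_pos hy0 2]
  have hk := key hB hE ht0 ht100 hp e2 e3 e4
  -- the other zero
  have hf := hfac (v ^ 2)
  rw [hv] at hf
  rcases mul_eq_zero.1 hf.symm with h | h
  · exfalso
    have hprod : (v ^ 2 - z ^ 2) * (v ^ 2 - (starRingEnd ℂ) (z ^ 2)) = 0 := by
      have h1 : ((2 * (z ^ 2).re : ℝ) : ℂ) = z ^ 2 + (starRingEnd ℂ) (z ^ 2) := by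
        rw [Complex.add_conj]
      have h2 : ((normSq (z ^ 2) : ℝ) : ℂ) = z ^ 2 * (starRingEnd ℂ) (z ^ 2) := by
        rw [Complex.mul_conj]
      rw [h1, h2] at h
      linear_combination h
    rcases mul_eq_zero.1 hprod with h | h
    · exact hne (eq_of_sq_eq hz1 hz2 hv1 hv2 (sub_eq_zero.1 h).symm)
    · have h5 := congrArg Complex.im (sub_eq_zero.1 h)
      rw [sq_im, Complex.conj_im, himz] at h5
      have : 0 ≤ 2 * v.re * v.im := by positivity
      have : 0 < 2 * x * y := by positivity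
      linarith
  · set X := v.re with hX
    set Y := v.im with hY
    rw [hre] at h
    have hre2 : (v ^ 2).re = X ^ 2 - Y ^ 2 := sq_re v
    have him2 : (v ^ 2).im = 2 * X * Y := sq_im v
    set u := (v ^ 2).re with hu
    set k := (v ^ 2).im with hkk
    have g1 := congrArg Complex.re h
    have g2 := congrArg Complex.im h
    simp only [Complex.add_re, Complex.sub_re, Complex.mul_re, Complex.ofReal_re,
      Complex.ofReal_im, Complex.add_im, Complex.sub_im, Complex.mul_im, zero_mul, sub_zero,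
      Complex.zero_re, Complex.zero_im, add_zero, sq_re (v ^ 2), sq_im (v ^ 2), ← hu, ← hkk] at g1 g2
    set r : ℝ := 2000000 - 2 * (x ^ 2 - y ^ 2) with hr
    have hM : 0 < 1000000 - 2 * (x ^ 2 - y ^ 2) + t := by
      have := (abs_lt.1 hp).2
      nlinarith
    have hxt : x ^ 2 ≤ t := by rw [ht]; nlinarith [sq_nonneg y]
    have hyt : y ^ 2 ≤ t := by rw [ht]; nlinarith [sq_nonneg x]
    have hrs : r ^ 2 < 4 * s := by
      have h6 : r < 2 * (1000000 - 2 * (x ^ 2 - y ^ 2) + t) := by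
        rw [hr, ht]; nlinarith [pow_pos hx0 2, pow_pos hy0 2]
      have h7 : 0 < r := by rw [hr]; nlinarith
      have h8 : r ^ 2 < (2 * (1000000 - 2 * (x ^ 2 - y ^ 2) + t)) ^ 2 := by gcongr
      nlinarith
    have hk0 : k ≠ 0 := by
      intro hk0
      rw [hk0] at g1
      nlinarith [sq_nonneg (2 * u - r)]
    have hur : 2 * u = r := by
      have : k * (2 * u - r) = 0 := by linarith
      have := (mul_eq_zero.1 this).resolve_left hk0
      linarith
    have hnorm : u ^ 2 + k ^ 2 = s := by nlinarith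
    have hXY : (X ^ 2 + Y ^ 2) ^ 2 = s := by
      rw [← hnorm, hre2, him2]; ring
    have hge : 1000000 - 2 * (x ^ 2 - y ^ 2) + t ≤ X ^ 2 + Y ^ 2 := by
      have h0 : 0 ≤ X ^ 2 + Y ^ 2 := by positivity
      exact le_of_sq_le_sq (by rw [hXY]; exact hk) h0
    have hu2 : 2 * (X ^ 2 - Y ^ 2) = r := by rw [← hre2]; exact hur
    constructor
    · have : x ^ 2 < X ^ 2 := by nlinarith
      exact lt_of_pow_lt_pow_left₀ 2 hv1 this
    · have : y ^ 2 ≤ Y ^ 2 := by rw [hr] at hu2; rw [ht] at hge; nlinarith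
      exact le_of_sq_le_sq this hv2

/-- No real root `≤ 0`. -/
lemma real_root_pos {a b : ℝ} (hB : Box a b) {w : ℂ} (hw : P a b w = 0) (him : w.im = 0) :
    0 < w.re := by
  obtain ⟨h1, h2, h3, h4⟩ := hB
  by_contra hcon
  push Not at hcon
  have hwr : w = ((w.re : ℝ) : ℂ) := Complex.ext (by simp) (by simp [him])
  rw [hwr] at hw
  unfold P at hw
  have hre : (w.re) ^ 4 - 2000000 * w.re ^ 3 + (1000000000000 + 1000000 * (2 + b + a)) * w.re ^ 2 +
      1000000000000 * a * w.re + 1000000000000 * b = 0 := by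
    exact_mod_cast hw
  set u := w.re
  have e1 : 0 ≤ -u ^ 3 := by
    have : 0 ≤ (-u) ^ 3 := by
      have : 0 ≤ -u := by linarith
      positivity
    nlinarith
  have e2 : 0 ≤ a * u := mul_nonneg_of_nonpos_of_nonpos (by linarith) hcon
  have e3 : 0 ≤ (1000000000000 + 1000000 * (2 + b + a)) * u ^ 2 := by
    have : 0 ≤ 1000000000000 + 1000000 * (2 + b + a) := by linarith
    positivity
  nlinarith [sq_nonneg (u ^ 2)]

lemma real_zero {a b : ℝ} (hB : Box a b) {z : ℂ} (hz1 : 0 ≤ z.re) (hz : P a b (z ^ 2) = 0)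
    (him : (z ^ 2).im = 0) : z.im = 0 ∧ 0 < z.re := by
  have h := real_root_pos hB hz him
  rw [sq_re] at h
  rw [sq_im] at him
  rcases hz1.lt_or_eq with h1 | h1
  · refine ⟨?_, h1⟩
    have : z.re * z.im = 0 := by linarith
    exact (mul_eq_zero.1 this).resolve_left h1.ne'
  · rw [← h1] at h
    nlinarith [sq_nonneg z.im]

/-- Ordered pairs of zeros. -/
def Good (z v : ℂ) : Prop := (z.re < v.re ∧ z.im ≤ v.im) ∨ (v.re < z.re ∧ v.im ≤ z.im)

lemma Good.symm {z v : ℂ} (h : Good z v) : Good v z := h.elim Or.inr Or.inl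

/-- A nonreal zero is ordered with every other zero. -/
lemma nonreal_case {a b : ℝ} (hB : Box a b) (hE : Edge a b) {z v : ℂ} (hz1 : 0 ≤ z.re)
    (hz2 : 0 ≤ z.im) (hv1 : 0 ≤ v.re) (hv2 : 0 ≤ v.im) (hz : P a b (z ^ 2) = 0)
    (hv : P a b (v ^ 2) = 0) (hne : z ≠ v) (him : (z ^ 2).im ≠ 0) : Good z v := by
  rcases root_loc hB hz with hsm | hlg
  · exact Or.inl (small_case hB hE hz1 hz2 hv1 hv2 hz hv hne him hsm)
  obtain ⟨s, e2, e3, e4, hfac⟩ := factor hz him
  have hzre : 990000 ≤ (z ^ 2).re := by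
    have h1 : |(z ^ 2 - 1000000).re| < 10000 := (Complex.abs_re_le_norm _).trans_lt hlg
    rw [Complex.sub_re] at h1
    have h2 := (abs_lt.1 h1).1
    have h3 : ((1000000 : ℂ)).re = 1000000 := by simp
    rw [h3] at h2
    linarith
  -- the other zero is small
  have hf := hfac (v ^ 2)
  rw [hv] at hf
  rcases mul_eq_zero.1 hf.symm with h | h
  · exfalso
    have hprod : (v ^ 2 - z ^ 2) * (v ^ 2 - (starRingEnd ℂ) (z ^ 2)) = 0 := by
      have h1 : ((2 * (z ^ 2).re : ℝ) : ℂ) = z ^ 2 + (starRingEnd ℂ) (z ^ 2) := by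
        rw [Complex.add_conj]
      have h2 : ((normSq (z ^ 2) : ℝ) : ℂ) = z ^ 2 * (starRingEnd ℂ) (z ^ 2) := by
        rw [Complex.mul_conj]
      rw [h1, h2] at h
      linear_combination h
    rcases mul_eq_zero.1 hprod with h | h
    · exact hne (eq_of_sq_eq hz1 hz2 hv1 hv2 (sub_eq_zero.1 h).symm)
    · have h5 := congrArg Complex.im (sub_eq_zero.1 h)
      rw [sq_im, Complex.conj_im, sq_im] at h5
      have h6 : 0 ≤ 2 * v.re * v.im := by positivity
      have h7 : 0 ≤ 2 * z.re * z.im := by positivity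
      apply him
      rw [sq_im]
      linarith
  · have hother : P a b (((2000000 - 2 * (z ^ 2).re : ℝ) : ℂ) - v ^ 2) = 0 := by
      rw [hfac]
      have : (((2000000 - 2 * (z ^ 2).re : ℝ) : ℂ) - v ^ 2) ^ 2 -
          ((2000000 - 2 * (z ^ 2).re : ℝ) : ℂ) * (((2000000 - 2 * (z ^ 2).re : ℝ) : ℂ) - v ^ 2) +
          (s : ℂ) = 0 := by
        linear_combination h
      rw [this, mul_zero]
    have hvsm : ‖v ^ 2‖ < 100 := by
      rcases root_loc hB hv with h8 | h8
      · exact h8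
      · exfalso
        have hvre : 990000 ≤ (v ^ 2).re := by
          have h1 : |(v ^ 2 - 1000000).re| < 10000 := (Complex.abs_re_le_norm _).trans_lt h8
          rw [Complex.sub_re] at h1
          have h2 := (abs_lt.1 h1).1
          have h3 : ((1000000 : ℂ)).re = 1000000 := by simp
          rw [h3] at h2
          linarith
        have hore : (((2000000 - 2 * (z ^ 2).re : ℝ) : ℂ) - v ^ 2).re ≤ -900000 := by
          rw [Complex.sub_re, Complex.ofReal_re]
          linarith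
        rcases root_loc hB hother with h9 | h9
        · have h10 := (Complex.abs_re_le_norm _).trans_lt h9
          have := (abs_lt.1 h10).1
          linarith
        · have h10 := (Complex.abs_re_le_norm _).trans_lt h9
          rw [Complex.sub_re] at h10
          have h3 : ((1000000 : ℂ)).re = 1000000 := by simp
          rw [h3] at h10
          have := (abs_lt.1 h10).1
          linarith
    by_cases hvim : (v ^ 2).im = 0
    · obtain ⟨hv0, hvp⟩ := real_zero hB hv1 hv hvim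
      right
      constructor
      · have h1 : v.re ^ 2 < z.re ^ 2 := by
          have h2 : v.re ^ 2 + v.im ^ 2 < 100 := by rw [← norm_sq']; exact hvsm
          have h3 := hzre
          rw [sq_re] at h3
          nlinarith [sq_nonneg v.im, sq_nonneg z.im]
        exact lt_of_pow_lt_pow_left₀ 2 hz1 h1
      · rw [hv0]; exact hz2
    · exact Or.inr (small_case hB hE hv1 hv2 hz1 hz2 hv hz (Ne.symm hne) hvim hvsm)

/-- On the edges all zeros are ordered. -/
lemma edge_good {a b : ℝ} (hB : Box a b) (hE : Edge a b) {z v : ℂ} (hz1 : 0 ≤ z.re)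
    (hz2 : 0 ≤ z.im) (hv1 : 0 ≤ v.re) (hv2 : 0 ≤ v.im) (hz : P a b (z ^ 2) = 0)
    (hv : P a b (v ^ 2) = 0) (hne : z ≠ v) : Good z v := by
  by_cases h1 : (z ^ 2).im = 0
  · by_cases h2 : (v ^ 2).im = 0
    · obtain ⟨a1, a2⟩ := real_zero hB hz1 hz h1
      obtain ⟨b1, b2⟩ := real_zero hB hv1 hv h2
      have hre : z.re ≠ v.re := fun h => hne (Complex.ext h (by rw [a1, b1]))
      rcases lt_or_gt_of_ne hre with h | h
      · exact Or.inl ⟨h, by rw [a1, b1]⟩
      · exact Or.inr ⟨h, by rw [a1, b1]⟩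
    · exact (nonreal_case hB hE hv1 hv2 hz1 hz2 hv hz (Ne.symm hne) h2).symm
  · exact nonreal_case hB hE hz1 hz2 hv1 hv2 hz hv hne h1

lemma comb (c d a₀ b₀ a₁ b₁ : ℝ) (h : c + d ≠ 0) (w : ℂ) :
    (c : ℂ) * P a₀ b₀ w + (d : ℂ) * P a₁ b₁ w =
      ((c + d : ℝ) : ℂ) * P ((c * a₀ + d * a₁) / (c + d)) ((c * b₀ + d * b₁) / (c + d)) w := by
  have h' : ((c : ℂ) + (d : ℂ)) ≠ 0 := by exact_mod_cast h
  unfold P
  push_cast
  field_simp
  ring

lemma mono_of_edge {a b C : ℝ} (hB : Box a b) (hE : Edge a b) (hC : C ≠ 0) {F : ℂ → ℂ}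
    (hF : ∀ z, F z = (C : ℂ) * P a b (z ^ 2)) : MonotonicZeros F := by
  have hC' : (C : ℂ) ≠ 0 := by exact_mod_cast hC
  refine ⟨⟨0, ?_⟩, ?_⟩
  · rw [hF]
    refine mul_ne_zero hC' ?_
    obtain ⟨-, -, h3, -⟩ := hB
    simp only [P]
    have : (b : ℂ) ≠ 0 := by
      have : b ≠ 0 := by linarith
      exact_mod_cast this
    simpa using this
  · intro z v hz1 hz2 hv1 hv2 hz hv hne
    rw [hF] at hz hv
    have hz' := (mul_eq_zero.1 hz).resolve_left hC'
    have hv' := (mul_eq_zero.1 hv).resolve_left hC'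
    rcases edge_good hB hE hz1 hz2 hv1 hv2 hz' hv' hne with h | h
    · exact ⟨h.1.ne, fun _ => h.2⟩
    · exact ⟨h.1.ne', fun h' => absurd h' (not_lt.2 h.1.le)⟩

/-- Parameters of the vertices. -/
noncomputable def A (n : ℕ) : ℝ := if n = 1 then -41 / 2 else -1 / 2

/-- Parameters of the vertices. -/
noncomputable def B (n : ℕ) : ℝ := if n ≤ 1 then 1 / 4 else 161 / 4

/-- The family. -/
noncomputable def fam (k : ℕ) (j : Fin k) (z : ℂ) : ℂ := P (A j) (B j) (z ^ 2)

lemma A_B_cases (n : ℕ) : (A n = -1 / 2 ∧ B n = 1 / 4) ∨ (A n = -41 / 2 ∧ B n = 1 / 4) ∨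
    (A n = -1 / 2 ∧ B n = 161 / 4) := by
  unfold A B
  rcases n with _ | _ | n
  · left; simp
  · right; left; simp
  · right; right; simp

lemma seg (m n : ℕ) {c d : ℝ} (hc : 0 ≤ c) (hd : 0 ≤ d) (h : 0 < c + d) :
    Box ((c * A m + d * A n) / (c + d)) ((c * B m + d * B n) / (c + d)) ∧
      Edge ((c * A m + d * A n) / (c + d)) ((c * B m + d * B n) / (c + d)) := by
  rcases A_B_cases m with ⟨e1, e2⟩ | ⟨e1, e2⟩ | ⟨e1, e2⟩ <;>
  rcases A_B_cases n with ⟨g1, g2⟩ | ⟨g1, g2⟩ | ⟨g1, g2⟩ <;>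
  rw [e1, e2, g1, g2] <;>
  refine ⟨⟨?_, ?_, ?_, ?_⟩, ?_⟩
  all_goals first
    | (rw [le_div_iff₀ h]; nlinarith)
    | (rw [div_le_iff₀ h]; nlinarith)
    | (left; rw [div_eq_iff h.ne']; ring1)
    | (right; left; rw [div_eq_iff h.ne']; ring1)
    | (right; right; field_simp; ring1)

lemma fam_even {k : ℕ} (j : Fin k) : EvenRealEntire (fam k j) := by
  refine ⟨?_, ?_, ?_⟩
  · unfold fam P
    fun_prop
  · intro z
    simp [fam]
  · intro x
    have : fam k j x = (((x ^ 2) ^ 4 - 2000000 * (x ^ 2) ^ 3 +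
        (1000000000000 + 1000000 * (2 + B j + A j)) * (x ^ 2) ^ 2 +
        (1000000000000 * A j) * (x ^ 2) + 1000000000000 * B j : ℝ) : ℂ) := by
      unfold fam P
      push_cast
      ring
    rw [this, Complex.ofReal_im]

lemma fam_mono {k : ℕ} (j : Fin k) : MonotonicZeros (fam k j) := by
  obtain ⟨h1, h2⟩ := seg j j (c := 1) (d := 0) (by norm_num) le_rfl (by norm_num)
  have e1 : ((1 : ℝ) * A j + 0 * A j) / (1 + 0) = A j := by ring
  have e2 : ((1 : ℝ) * B j + 0 * B j) / (1 + 0) = B j := by ring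
  rw [e1, e2] at h1 h2
  exact mono_of_edge h1 h2 (C := 1) one_ne_zero (fun z => by simp [fam])

lemma fam_pairwise (k : ℕ) : PairwiseCompatible (fam k) := by
  intro i j _ c hc hne
  have hsum : ∀ z, ∑ l, (c l : ℂ) * (![fam k i, fam k j] : Fin 2 → ℂ → ℂ) l z =
      (c 0 : ℂ) * fam k i z + (c 1 : ℂ) * fam k j z := by
    intro z
    rw [Fin.sum_univ_two]
    rfl
  have hpos : 0 < c 0 + c 1 := by
    rcases (add_nonneg (hc 0) (hc 1)).lt_or_eq with h | h
    · exact h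
    · exfalso
      obtain ⟨z, hz⟩ := hne
      have h0 : c 0 = 0 := by linarith [hc 0, hc 1]
      have h1 : c 1 = 0 := by linarith [hc 0, hc 1]
      apply hz
      rw [hsum, h0, h1]
      simp
  obtain ⟨h1, h2⟩ := seg i j (hc 0) (hc 1) hpos
  refine mono_of_edge h1 h2 (C := c 0 + c 1) hpos.ne' (fun z => ?_)
  rw [hsum]
  exact comb _ _ _ _ _ _ hpos.ne' _

/-- The constant term of the large factor at the interior point. -/
noncomputable def s₀ : ℝ := 1000000 ^ 2 - 5 / 2 * 1000000 - 27 / 16 + 81 / 16 / 1000000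

/-- The weights of the interior point. -/
noncomputable def c₁ : ℝ := (9 / 4 * (s₀ + 2 * 1000000 - 9 / 4) / 1000000 ^ 2 - 1 / 2) / 20

/-- The weights of the interior point. -/
noncomputable def c₂ : ℝ := (9 / 4 * s₀ / 1000000 ^ 2 - 1 / 4) / 40

/-- The weights of the interior point. -/
noncomputable def wt (n : ℕ) : ℝ :=
  if n = 0 then 1 - c₁ - c₂ else if n = 1 then c₁ else if n = 2 then c₂ else 0

lemma wt_nonneg (n : ℕ) : 0 ≤ wt n := by
  unfold wt
  split_ifs
  · unfold c₁ c₂ s₀; norm_num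
  · unfold c₁ s₀; norm_num
  · unfold c₂ s₀; norm_num
  · exact le_rfl

lemma center_sum (m : ℕ) (z : ℂ) :
    ∑ j : Fin (m + 3), ((wt j : ℝ) : ℂ) * fam (m + 3) j z =
      ((z ^ 2) ^ 2 - 9 / 4 * z ^ 2 + 9 / 4) *
        ((z ^ 2) ^ 2 - (2000000 - 9 / 4) * z ^ 2 + (s₀ : ℂ)) := by
  rw [Fin.sum_univ_succ, Fin.sum_univ_succ, Fin.sum_univ_succ]
  have hrest : ∑ i : Fin m, ((wt (i.succ.succ.succ : Fin (m + 3)) : ℝ) : ℂ) *
      fam (m + 3) i.succ.succ.succ z = 0 := by
    apply Finset.sum_eq_zero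
    intro i _
    have : wt ((i.succ.succ.succ : Fin (m + 3)) : ℕ) = 0 := by
      simp [wt]
    rw [this]
    simp
  rw [hrest]
  have v2 : ((Fin.succ (Fin.succ 0) : Fin (m + 3)) : ℕ) = 2 := rfl
  have h0 : wt ((0 : Fin (m + 3)) : ℕ) = 1 - c₁ - c₂ := by simp [wt]
  have h1 : wt ((Fin.succ 0 : Fin (m + 3)) : ℕ) = c₁ := by simp [wt]
  have h2 : wt ((Fin.succ (Fin.succ 0) : Fin (m + 3)) : ℕ) = c₂ := by rw [v2]; simp [wt]
  have a0 : A ((0 : Fin (m + 3)) : ℕ) = -1 / 2 := by simp [A]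
  have a1 : A ((Fin.succ 0 : Fin (m + 3)) : ℕ) = -41 / 2 := by simp [A]
  have a2 : A ((Fin.succ (Fin.succ 0) : Fin (m + 3)) : ℕ) = -1 / 2 := by rw [v2]; simp [A]
  have b0 : B ((0 : Fin (m + 3)) : ℕ) = 1 / 4 := by simp [B]
  have b1 : B ((Fin.succ 0 : Fin (m + 3)) : ℕ) = 1 / 4 := by simp [B]
  have b2 : B ((Fin.succ (Fin.succ 0) : Fin (m + 3)) : ℕ) = 161 / 4 := by rw [v2]; simp [B]
  simp only [fam]
  rw [h0, h1, h2, a0, a1, a2, b0, b1, b2]
  unfold P c₁ c₂ s₀
  push_cast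
  ring

lemma not_compatible (m : ℕ) : ¬ Compatible (fam (m + 3)) := by
  intro hcomp
  have hne : ∃ z, ∑ j : Fin (m + 3), ((wt j : ℝ) : ℂ) * fam (m + 3) j z ≠ 0 := by
    refine ⟨0, ?_⟩
    rw [center_sum]
    have : s₀ ≠ 0 := by unfold s₀; norm_num
    have : (s₀ : ℂ) ≠ 0 := by exact_mod_cast this
    simpa using this
  obtain ⟨-, hmono⟩ := hcomp (fun j => wt j) (fun j => wt_nonneg j) hne
  -- the two zeros
  set d : ℝ := Real.sqrt ((1000000 - 9 / 8) ^ 2 - s₀) with hd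
  have hd2 : d ^ 2 = (1000000 - 9 / 8) ^ 2 - s₀ := by
    apply Real.sq_sqrt
    unfold s₀
    norm_num
  have hd0 : 0 ≤ d := Real.sqrt_nonneg _
  set v : ℝ := Real.sqrt (1000000 - 9 / 8 + d) with hv
  have hv2 : v ^ 2 = 1000000 - 9 / 8 + d := Real.sq_sqrt (by linarith)
  have hv0 : 0 ≤ v := Real.sqrt_nonneg _
  have h21 : Real.sqrt 21 ^ 2 = 21 := Real.sq_sqrt (by norm_num)
  have h3 : Real.sqrt 3 ^ 2 = 3 := Real.sq_sqrt (by norm_num)
  have p21 : 0 < Real.sqrt 21 := Real.sqrt_pos.2 (by norm_num)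
  have p3 : 0 < Real.sqrt 3 := Real.sqrt_pos.2 (by norm_num)
  set z : ℂ := ⟨Real.sqrt 21 / 4, Real.sqrt 3 / 4⟩ with hz
  have hzre : z.re = Real.sqrt 21 / 4 := rfl
  have hzim : z.im = Real.sqrt 3 / 4 := rfl
  have hF1 : ∑ j : Fin (m + 3), ((wt j : ℝ) : ℂ) * fam (m + 3) j z = 0 := by
    rw [center_sum]
    have : (z ^ 2) ^ 2 - 9 / 4 * z ^ 2 + 9 / 4 = 0 := by
      have hr : (z ^ 2).re = 9 / 8 := by rw [sq_re, hzre, hzim]; nlinarith
      have hi : (z ^ 2).im = Real.sqrt 21 * Real.sqrt 3 / 8 := by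
        rw [sq_im, hzre, hzim]; ring
      have hzz : z ^ 2 = ((9 / 8 : ℝ) : ℂ) + ((Real.sqrt 21 * Real.sqrt 3 / 8 : ℝ) : ℂ) * I := by
        apply Complex.ext
        · simp [hr]
        · simp [hi]
      rw [hzz]
      have hk : ((Real.sqrt 21 * Real.sqrt 3 / 8 : ℝ) : ℂ) ^ 2 = ((63 / 64 : ℝ) : ℂ) := by
        rw [← Complex.ofReal_pow]
        congr 1
        have : (Real.sqrt 21 * Real.sqrt 3 / 8) ^ 2 = Real.sqrt 21 ^ 2 * Real.sqrt 3 ^ 2 / 64 := by
          ring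
        rw [this, h21, h3]; norm_num
      generalize ((Real.sqrt 21 * Real.sqrt 3 / 8 : ℝ) : ℂ) = κ at hk ⊢
      push_cast at hk ⊢
      linear_combination (-1 : ℂ) * hk + κ ^ 2 * Complex.I_sq
    rw [this, zero_mul]
  have hF2 : ∑ j : Fin (m + 3), ((wt j : ℝ) : ℂ) * fam (m + 3) j (v : ℂ) = 0 := by
    rw [center_sum]
    have : ((v : ℂ) ^ 2) ^ 2 - (2000000 - 9 / 4) * (v : ℂ) ^ 2 + (s₀ : ℂ) = 0 := by
      have : (v ^ 2) ^ 2 - (2000000 - 9 / 4) * v ^ 2 + s₀ = 0 := by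
        rw [hv2]
        nlinarith [hd2]
      have h' : (((v ^ 2) ^ 2 - (2000000 - 9 / 4) * v ^ 2 + s₀ : ℝ) : ℂ) = ((0 : ℝ) : ℂ) := by
        rw [this]
      push_cast at h'
      exact h'
    rw [this, mul_zero]
  have hlt : z.re < (v : ℂ).re := by
    rw [hzre, Complex.ofReal_re]
    have : (Real.sqrt 21 / 4) ^ 2 < v ^ 2 := by
      rw [hv2]
      have : (Real.sqrt 21 / 4) ^ 2 = 21 / 16 := by rw [div_pow, h21]; norm_num
      rw [this]
      linarith
    exact lt_of_pow_lt_pow_left₀ 2 hv0 this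
  have hcon := (hmono z v (by rw [hzre]; positivity) (by rw [hzim]; positivity)
    (by simpa using hv0) (by simp) hF1 hF2 (fun h => by
      have := congrArg Complex.im h
      rw [hzim, Complex.ofReal_im] at this
      linarith)).2 hlt
  rw [hzim, Complex.ofReal_im] at hcon
  linarith

/-- **MP_c4a6c0, Q1 (negative answer).**  For every `k ≥ 3` there are `k` even real polynomials of
degree `8`, each with monotonic zeros in the closed first quadrant, which are pairwise compatible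
but not compatible. -/
theorem result : ∀ k : ℕ, 3 ≤ k → ∃ f : Fin k → ℂ → ℂ,
    (∀ j, EvenRealEntire (f j) ∧ MonotonicZeros (f j) ∧
      ∃ p : Polynomial ℝ, p.natDegree = 8 ∧ ∀ z, f j z = Polynomial.aeval z p) ∧
    PairwiseCompatible f ∧ ¬ Compatible f := by
  intro k hk
  obtain ⟨m, rfl⟩ := Nat.exists_eq_add_of_le' hk
  refine ⟨fam (m + 3), fun j => ⟨fam_even j, fam_mono j, ?_⟩, fam_pairwise _, not_compatible m⟩
  refine ⟨Polynomial.X ^ 8 - Polynomial.C 2000000 * Polynomial.X ^ 6 +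
    Polynomial.C (1000000000000 + 1000000 * (2 + B j + A j)) * Polynomial.X ^ 4 +
    Polynomial.C (1000000000000 * A j) * Polynomial.X ^ 2 + Polynomial.C (1000000000000 * B j),
    by compute_degree!, fun z => ?_⟩
  simp only [fam, P, map_add, map_sub, map_mul, map_pow, Polynomial.aeval_X, Polynomial.aeval_C,
    Complex.coe_algebraMap]
  push_cast
  ring

end Pool.Agent.Results.MP_c4a6c0_an.PairwiseNotEnough
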